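import Mathlib
import Pool.Agent.R582.SB.Hyp
import Pool.Agent.R582.SB.Force

/-!
# MP_4137ca_lc, Q1: consistently, no countably generated `σ`-algebra contains all analytic sets
-/

namespace Pool.Agent.Results.MP_4137ca_lc.ConsistentlyNone

open Cardinal Set MeasureTheory
open Pool.Agent.R582.SB

/-- The statement of Q1: there is a sequence of subsets of `I = [0, 1]` such that the `σ`-algebra
generated by it contains every analytic subset of `I`. -/
def Q1 : Prop :=
  ∃ A : ℕ → Set unitInterval, ∀ B : Set unitInterval, AnalyticSet B →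
    MeasurableSet[MeasurableSpace.generateFrom (range A)] B

/-- (1) If `|Γ| > ℵ₁`, the forcing notion `Cnd W1 Γ W1 id` (where `W1` is the set `ω₁`) is ccc and
forces the hypothesis `Hyp W1 Γ e`. (2) There is `e` such that `e ξ` enumerates the predecessors of
`ξ`, for all `ξ < ω₁`. (3) In ZFC, the hypothesis for such `e` implies that for every sequence
`(A n)` of subsets of `[0, 1]` some analytic subset of `[0, 1]` lies outside the `σ`-algebra generated
by it. (4) So Q1 then fails. -/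
theorem result :
    (∀ Γ : Type, ℵ_ 1 < #Γ → Pool.Agent.H631R2.CCC (Cnd W1 Γ W1 id) ∧
      ∀ (e : W1 → ℕ → W1) (p : Cnd W1 Γ W1 id), p ∈ HypN (Cnd W1 Γ W1 id) W1 Γ e) ∧
    (∃ e : W1 → ℕ → W1, ∀ ξ η, η < ξ → ∃ m, e ξ m = η) ∧
    (∀ (W Γ : Type) [LinearOrder W] [WellFoundedLT W] [Nonempty W] (e : W → ℕ → W),
      (∀ ξ η, η < ξ → ∃ m, e ξ m = η) → Hyp W Γ e → ∀ A : ℕ → Set unitInterval,
        ∃ B : Set unitInterval, AnalyticSet B ∧
          ¬ MeasurableSet[MeasurableSpace.generateFrom (range A)] B) ∧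
    (∀ (W Γ : Type) [LinearOrder W] [WellFoundedLT W] [Nonempty W] (e : W → ℕ → W),
      (∀ ξ η, η < ξ → ∃ m, e ξ m = η) → Hyp W Γ e → ¬ Q1) := by
  refine ⟨fun Γ hΓ => ⟨ccc Pool.Agent.R582.NR.countable_Iio_omega, fun e p => forced_main Γ hΓ e p⟩,
    exists_enum, fun W Γ _ _ _ e he h A => not_all_analytic he h A, ?_⟩
  rintro W Γ _ _ _ e he h ⟨A, hA⟩
  obtain ⟨B, hB, hB'⟩ := not_all_analytic he h A
  exact hB' (hA B hB)

end Pool.Agent.Results.MP_4137ca_lc.ConsistentlyNone
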